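import Pool.Agent.P.MP_767cd9_co.Q1.TopL

/-! Covering on the grid `[n]^d`: for every `c > 0` there is a dimension `d` in which
`n^(d/2 + c)` cops suffice. -/

namespace Pool.Agent.Results.MP_767cd9_co.NoLowerGap

open Pool.Agent.P.MP_767cd9_co

/-- Vertices of the grid `[n]^d` (coordinates `0, ..., n-1`). -/
abbrev V (n d : ℕ) : Type := Fin d → Fin n

/-- The sup-distance between `v` and `w` is at most `k`. -/
def Close {n d : ℕ} (k : ℤ) (v w : V n d) : Prop :=
  ∀ i, |((v i : ℕ) : ℤ) - ((w i : ℕ) : ℤ)| ≤ k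

/-- The list `[r 0, ..., r t]` of the robber's first `t + 1` positions. -/
def hist {n d : ℕ} (r : ℕ → V n d) (t : ℕ) : List (V n d) := (List.range (t + 1)).map r

/-- `k` cops stand at `start (r 0)` at the beginning and move first; on the turn at which they
have seen `r 0, ..., r t` they move to `move [r 0, ..., r t]`. Against every robber walk `r` with
steps of length at most 2, all cop moves have length at most 1, and after each such cop turn with
`t ≥ t0` some cop stands on the robber's vertex `r t`. -/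
def Wins {n d k : ℕ} (start : V n d → Fin k → V n d) (move : List (V n d) → Fin k → V n d)
    (t0 : ℕ) : Prop :=
  ∀ r : ℕ → V n d, (∀ t, Close 2 (r t) (r (t + 1))) →
    (∀ i, Close 1 (start (r 0) i) (move (hist r 0) i)) ∧
    (∀ t i, Close 1 (move (hist r t) i) (move (hist r (t + 1)) i)) ∧
    ∀ t, t0 ≤ t → ∃ i, move (hist r t) i = r t

/-- The cops see the robber's starting vertex before placing themselves, and cover him after
every one of their turns. -/
def CoverFromStart (n d k : ℕ) : Prop :=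
  ∃ (start : V n d → Fin k → V n d) (move : List (V n d) → Fin k → V n d), Wins start move 0

/-- The cops place themselves first, and cover the robber after every one of their turns from
some fixed turn on. -/
def CoverEventually (n d k : ℕ) : Prop :=
  ∃ (c : Fin k → V n d) (move : List (V n d) → Fin k → V n d) (t0 : ℕ), Wins (fun _ => c) move t0

/-- Nearest point of `{0, ..., n}` (used only in the proof). -/
def clampF (n : ℕ) (x : ℤ) : Fin (n + 1) := ⟨min x.toNat n, by omega⟩

lemma aux {n d k t0 D : ℕ} (hD : D ≤ t0) (G : Fin k → (ℕ → Pt d) → ℕ → Pt d)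
    (G1 : ∀ β r r' t, (∀ a < t, r a = r' a) → G β r t = G β r' t)
    (G3 : ∀ β r t, Nr 1 (G β r t) (G β r (t + 1)))
    (G4 : ∀ r, (∀ t, Nr 2 (r t) (r (t + 1))) → (∀ t c, |r t c| ≤ ((n + 1 : ℕ) : ℤ)) →
      ∀ t, t0 ≤ t → ∃ β, G β r (t + 1) = r t) :
    Wins (n := n + 1) (fun v i c => clampF n (G i (fun _ c => (v c : ℕ)) D c))
      (fun l i c => clampF n (G i (fun a c => (l.getD (a - D) 0 c : ℕ)) (D + l.length) c))
      (t0 - D) := by
  intro r hr
  set R : ℕ → Pt d := fun a c => (r (a - D) c : ℕ) with hR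
  have hlen : ∀ t, (hist r t).length = t + 1 := fun t => by simp [hist]
  have hmv : ∀ i t, G i (fun a c => ((hist r t).getD (a - D) 0 c : ℕ)) (D + (hist r t).length) =
      G i R (D + t + 1) := by
    intro i t
    rw [hlen, ← add_assoc]
    refine G1 _ _ _ _ fun a ha => ?_
    have : a - D < t + 1 := by omega
    simp [hist, hR, this]
  have hst : ∀ i, G i (fun _ c => (r 0 c : ℕ)) D = G i R D := by
    intro i
    refine G1 _ _ _ _ fun a ha => ?_
    simp only [hR]
    rw [show a - D = 0 by omega]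
  have hcl : ∀ x y : Pt d, Nr 1 x y →
      Close (n := n + 1) 1 (fun c => clampF n (x c)) (fun c => clampF n (y c)) := by
    intro x y h c
    have := abs_le.mp (h c)
    simp only [clampF]
    rw [abs_le]; omega
  refine ⟨fun i => ?_, fun t i => ?_, fun t ht => ?_⟩
  · simp only [hmv, hst]; exact hcl _ _ (G3 _ _ _)
  · simp only [hmv]; exact hcl _ _ (G3 _ _ _)
  · have h1 : ∀ a, Nr 2 (R a) (R (a + 1)) := by
      intro a c
      simp only [hR]
      rcases Nat.lt_or_ge a D with h | h
      · rw [show a - D = 0 by omega, show a + 1 - D = 0 by omega]; simp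
      · rw [show a + 1 - D = a - D + 1 by omega]; exact hr _ c
    have h2 : ∀ a c, |R a c| ≤ ((n + 1 : ℕ) : ℤ) := by
      intro a c
      have := (r (a - D) c).2
      simp only [hR]
      rw [abs_le]; omega
    obtain ⟨β, hβ⟩ := G4 R h1 h2 (D + t) (by omega)
    refine ⟨β, ?_⟩
    funext c
    simp only [hmv, hβ]
    simp only [hR, Nat.add_sub_cancel_left, clampF]
    ext
    have := (r t c).2
    simp only [Int.toNat_natCast]
    omega

theorem result : ∀ c : ℝ, 0 < c → ∃ d : ℕ, 1 ≤ d ∧ ∃ n0 : ℕ, ∀ n : ℕ, n0 ≤ n → ∃ k : ℕ,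
    (k : ℝ) ≤ (n : ℝ) ^ ((d : ℝ) / 2 + c) ∧ CoverFromStart n d k ∧ CoverEventually n d k := by
  intro c hc
  obtain ⟨d, K, C, hfg⟩ := Q1.fg_all (c := c / 3) (by positivity)
  obtain ⟨N0, h⟩ := Q1.main' (by positivity) hfg
  refine ⟨d + 1, by omega, N0 + 1, fun n hn => ?_⟩
  obtain ⟨n, rfl⟩ : ∃ e, n = e + 1 := ⟨n - 1, by omega⟩
  obtain ⟨k, t0, p, G, h0, G1, G2, G3, G4⟩ := h (n + 1) (by omega)
  rw [show 3 * (c / 3) = c by ring] at h0
  refine ⟨k, h0, ⟨_, _, Nat.sub_self t0 ▸ aux le_rfl G G1 G3 G4⟩, ?_⟩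
  have := aux (Nat.zero_le t0) G G1 G3 G4
  simp only [G2] at this
  exact ⟨_, _, _, this⟩

end Pool.Agent.Results.MP_767cd9_co.NoLowerGap
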